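import Pool.Agent.MVS.Stmts

noncomputable section

open scoped ContDiff Topology RealInnerProductSpace
open Set MeasureTheory

namespace Pool.Agent.MVS.H82

open Pool.Agent.RF

theorem slab_subset : slab (Fin 5) ⊆ {x : E5 | 1 ≤ ‖x‖ ∧ ‖x‖ ≤ Real.exp 1} :=
  fun _ hx => ⟨hx.1.le, hx.2.le⟩

theorem annulus_compact : IsCompact {x : E5 | 1 ≤ ‖x‖ ∧ ‖x‖ ≤ Real.exp 1} := by
  have h : {x : E5 | 1 ≤ ‖x‖ ∧ ‖x‖ ≤ Real.exp 1} ⊆ Metric.closedBall (0 : E5) (Real.exp 1) := by
    intro x hx
    simpa using hx.2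
  refine (isCompact_closedBall (0 : E5) (Real.exp 1)).of_isClosed_subset ?_ h
  exact (isClosed_le continuous_const continuous_norm).inter
    (isClosed_le continuous_norm continuous_const)

theorem chv (hSdf : SdfStatement) (hCoi : CoiStatement) : ChvStatement := by
  intro G κ a b F hS hN
  set W : Set E5 := {z | 1 < ‖pN κ z‖ ∧ ‖pN κ z‖ < Real.exp 1 ∧ ‖pP κ z‖ < Real.pi / 2} with hW
  have hWo : IsOpen W :=
    (isOpen_lt continuous_const (pN κ).continuous.norm).inter
      ((isOpen_lt (pN κ).continuous.norm continuous_const).inter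
        (isOpen_lt (pP κ).continuous.norm continuous_const))
  have hWn : ∀ z ∈ W, pN κ z ≠ 0 := by
    intro z hz h0
    have h1 := hz.1
    rw [h0, norm_zero] at h1
    linarith
  have hUo : IsOpen {z : E5 | pN κ z ≠ 0} :=
    isOpen_ne_fun (pN κ).continuous continuous_const
  have hd : ∀ z ∈ W, HasFDerivWithinAt F (fderiv ℝ F z) W z := by
    intro z hz
    have h1 : ContDiffAt ℝ ∞ F z := hN.smooth.contDiffAt (hUo.mem_nhds (hWn z hz))
    exact (h1.differentiableAt (by simp)).hasFDerivAt.hasFDerivWithinAt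
  have hinj : InjOn F W := by
    intro z hz z' hz' h
    exact hCoi G κ a b F hS hN z z' (hWn z hz) (hWn z' hz') hz.2.2 hz'.2.2 h
  have himg : F '' W ⊆ slab (Fin 5) := by
    rintro _ ⟨z, hz, rfl⟩
    have h1 := hN.norm z (hWn z hz)
    exact ⟨by rw [h1]; exact hz.1, by rw [h1]; exact hz.2.1⟩
  obtain ⟨-, hs2, -, hs4⟩ := hSdf (Fin 5)
  have hcont : ContinuousOn (fun x : E5 => sd (G x)) (Om (Fin 5)) := hs4 G _ hS.cyl.metric
  have hann : {x : E5 | 1 ≤ ‖x‖ ∧ ‖x‖ ≤ Real.exp 1} ⊆ Om (Fin 5) := by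
    intro x hx h0
    have h1 := hx.1
    rw [h0, norm_zero] at h1
    linarith
  have hint : IntegrableOn (fun x : E5 => sd (G x)) (slab (Fin 5)) :=
    ((hcont.mono hann).integrableOn_compact annulus_compact).mono_set slab_subset
  have hDz : ∀ z, |(fderiv ℝ F z).det| • sd (G (F z)) = Dz G F z := by
    intro z
    rw [smul_eq_mul]
    exact (hs2 (G (F z)) (fderiv ℝ F z)).symm
  have hfun : (fun z => |(fderiv ℝ F z).det| • sd (G (F z))) = fun z => Dz G F z :=
    funext hDz
  have hiff := integrableOn_image_iff_integrableOn_abs_det_fderiv_smul volume hWo.measurableSet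
    hd hinj (fun x : E5 => sd (G x))
  have heq := integral_image_eq_integral_abs_det_fderiv_smul volume hWo.measurableSet
    hd hinj (fun x : E5 => sd (G x))
  rw [hfun] at hiff heq
  refine ⟨hiff.1 (hint.mono_set himg), ?_⟩
  rw [← heq]
  exact setIntegral_mono_set hint (Filter.Eventually.of_forall fun x => Real.sqrt_nonneg _)
    (Filter.Eventually.of_forall himg)

end Pool.Agent.MVS.H82
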